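import Mathlib

/-!
The curves `y ^ 2 = x ^ 3 + δ ^ 2 x + δ ^ 3`: scaling isomorphisms between them, and the infinite
order of the point with abscissa `0`.
-/

namespace PinkTw

open WeierstrassCurve WeierstrassCurve.Affine

variable {k : Type*} [Field k]

/-- The Weierstrass curve `y ^ 2 = x ^ 3 + δ ^ 2 x + δ ^ 3`, the quadratic twist by `δ` of the
curve `y ^ 2 = x ^ 3 + x + 1`. -/
def W (δ : k) : WeierstrassCurve.Affine k := ⟨0, 0, 0, δ ^ 2, δ ^ 3⟩

@[simp] lemma W_a₁ (δ : k) : (W δ).a₁ = 0 := rfl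
@[simp] lemma W_a₂ (δ : k) : (W δ).a₂ = 0 := rfl
@[simp] lemma W_a₃ (δ : k) : (W δ).a₃ = 0 := rfl
@[simp] lemma W_a₄ (δ : k) : (W δ).a₄ = δ ^ 2 := rfl
@[simp] lemma W_a₆ (δ : k) : (W δ).a₆ = δ ^ 3 := rfl

lemma W_Δ (δ : k) : (W δ).Δ = -496 * δ ^ 6 := by
  simp only [WeierstrassCurve.Δ, WeierstrassCurve.b₂, WeierstrassCurve.b₄, WeierstrassCurve.b₆,
    WeierstrassCurve.b₈, W_a₁, W_a₂, W_a₃, W_a₄, W_a₆]
  ring

lemma W_isElliptic [CharZero k] {δ : k} (hδ : δ ≠ 0) : (W δ).IsElliptic := by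
  constructor
  rw [W_Δ, isUnit_iff_ne_zero]
  have : (496 : k) ≠ 0 := by norm_num
  exact mul_ne_zero (neg_ne_zero.2 this) (pow_ne_zero _ hδ)

lemma W_equation (δ x y : k) : (W δ).Equation x y ↔ y ^ 2 = x ^ 3 + δ ^ 2 * x + δ ^ 3 := by
  rw [Affine.equation_iff]
  simp

lemma W_negY (δ x y : k) : (W δ).negY x y = -y := by
  simp [Affine.negY]

lemma W_nonsingular (δ x y : k) : (W δ).Nonsingular x y ↔
    y ^ 2 = x ^ 3 + δ ^ 2 * x + δ ^ 3 ∧ (0 ≠ 3 * x ^ 2 + δ ^ 2 ∨ y ≠ -y) := by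
  rw [Affine.nonsingular_iff, W_equation]
  simp

lemma nonsingular_scale {δ δ' c : k} (hc : c ≠ 0) (h : δ' = c ^ 2 * δ) {x y : k}
    (hxy : (W δ).Nonsingular x y) : (W δ').Nonsingular (c ^ 2 * x) (c ^ 3 * y) := by
  rw [W_nonsingular] at hxy ⊢
  obtain ⟨h1, h2⟩ := hxy
  subst h
  refine ⟨?_, ?_⟩
  · linear_combination c ^ 6 * h1
  · rcases h2 with h2 | h2
    · left
      intro h0
      apply h2
      have : c ^ 4 * (3 * x ^ 2 + δ ^ 2) = 0 := by linear_combination -h0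
      rcases mul_eq_zero.1 this with h | h
      · exact absurd h (pow_ne_zero _ hc)
      · exact h.symm
    · right
      intro h0
      apply h2
      have : c ^ 3 * (y - -y) = 0 := by linear_combination h0
      rcases mul_eq_zero.1 this with h | h
      · exact absurd h (pow_ne_zero _ hc)
      · exact sub_eq_zero.1 h

/-- The scaling map `(x, y) ↦ (c ^ 2 x, c ^ 3 y)`. -/
def scaleFun {δ δ' c : k} (hc : c ≠ 0) (h : δ' = c ^ 2 * δ) : (W δ).Point → (W δ').Point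
  | .zero => .zero
  | .some x y hxy => .some (c ^ 2 * x) (c ^ 3 * y) (nonsingular_scale hc h hxy)

variable [DecidableEq k]

lemma slope_scale {δ δ' c : k} (hc : c ≠ 0) (h : δ' = c ^ 2 * δ) (x₁ x₂ y₁ y₂ : k) :
    (W δ').slope (c ^ 2 * x₁) (c ^ 2 * x₂) (c ^ 3 * y₁) (c ^ 3 * y₂) =
      c * (W δ).slope x₁ x₂ y₁ y₂ := by
  have hc2 : c ^ 2 ≠ 0 := pow_ne_zero _ hc
  have hc3 : c ^ 3 ≠ 0 := pow_ne_zero _ hc
  by_cases hx : x₁ = x₂
  · subst hx
    by_cases hy : y₁ = (W δ).negY x₁ y₂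
    · rw [slope_of_Y_eq rfl hy, slope_of_Y_eq rfl, mul_zero]
      rw [W_negY] at hy ⊢
      rw [hy]; ring
    · have hy' : c ^ 3 * y₁ ≠ (W δ').negY (c ^ 2 * x₁) (c ^ 3 * y₂) := by
        rw [W_negY] at hy ⊢
        intro h0
        apply hy
        have : c ^ 3 * (y₁ - -y₂) = 0 := by linear_combination h0
        rcases mul_eq_zero.1 this with h | h
        · exact absurd h hc3
        · exact sub_eq_zero.1 h
      rw [slope_of_Y_ne rfl hy, slope_of_Y_ne rfl hy', W_negY, W_negY]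
      simp only [W_a₁, W_a₂, W_a₄]
      subst h
      by_cases h2 : y₁ - -y₁ = 0
      · rw [h2, show c ^ 3 * y₁ - -(c ^ 3 * y₁) = c ^ 3 * (y₁ - -y₁) by ring, h2]
        simp
      · rw [show c ^ 3 * y₁ - -(c ^ 3 * y₁) = c ^ 3 * (y₁ - -y₁) by ring]
        field_simp
        ring
  · have hx' : c ^ 2 * x₁ ≠ c ^ 2 * x₂ := fun h0 => hx (mul_left_cancel₀ hc2 h0)
    rw [slope_of_X_ne hx, slope_of_X_ne hx']
    have h1 : x₁ - x₂ ≠ 0 := sub_ne_zero.2 hx
    rw [← mul_sub, ← mul_sub]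
    field_simp

omit [DecidableEq k] in
lemma addX_scale {δ δ' c : k} (x₁ x₂ ℓ : k) :
    (W δ').addX (c ^ 2 * x₁) (c ^ 2 * x₂) (c * ℓ) = c ^ 2 * (W δ).addX x₁ x₂ ℓ := by
  simp only [Affine.addX, W_a₁, W_a₂]
  ring

omit [DecidableEq k] in
lemma addY_scale {δ δ' c : k} (x₁ x₂ y₁ ℓ : k) :
    (W δ').addY (c ^ 2 * x₁) (c ^ 2 * x₂) (c ^ 3 * y₁) (c * ℓ) =
      c ^ 3 * (W δ).addY x₁ x₂ y₁ ℓ := by
  simp only [Affine.addY, Affine.negAddY, W_negY, addX_scale (δ := δ) (δ' := δ')]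
  ring

/-- The scaling isomorphism as a homomorphism of groups. -/
def scale {δ δ' c : k} (hc : c ≠ 0) (h : δ' = c ^ 2 * δ) : (W δ).Point →+ (W δ').Point where
  toFun := scaleFun hc h
  map_zero' := rfl
  map_add' := by
    rintro (_ | ⟨x₁, y₁, h₁⟩) (_ | ⟨x₂, y₂, h₂⟩)
    · rfl
    · rfl
    · rfl
    · by_cases hxy : x₁ = x₂ ∧ y₁ = (W δ).negY x₂ y₂
      · rw [Affine.Point.add_of_Y_eq hxy.1 hxy.2]
        symm
        show Affine.Point.some _ _ _ + Affine.Point.some _ _ _ = _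
        apply Affine.Point.add_of_Y_eq
        · rw [hxy.1]
        · rw [hxy.2, W_negY, W_negY]; ring
      · have hxy' : ¬ (c ^ 2 * x₁ = c ^ 2 * x₂ ∧
            c ^ 3 * y₁ = (W δ').negY (c ^ 2 * x₂) (c ^ 3 * y₂)) := by
          rintro ⟨e1, e2⟩
          apply hxy
          refine ⟨mul_left_cancel₀ (pow_ne_zero _ hc) e1, ?_⟩
          rw [W_negY] at e2 ⊢
          apply mul_left_cancel₀ (pow_ne_zero 3 hc)
          rw [e2]; ring
        rw [Affine.Point.add_some hxy]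
        show scaleFun hc h _ = Affine.Point.some _ _ _ + Affine.Point.some _ _ _
        rw [Affine.Point.add_some hxy']
        simp only [scaleFun, Affine.Point.some.injEq, slope_scale hc h]
        exact ⟨(addX_scale _ _ _).symm, (addY_scale _ _ _ _).symm⟩

@[simp] lemma scale_some {δ δ' c : k} (hc : c ≠ 0) (h : δ' = c ^ 2 * δ) (x y : k)
    (hxy : (W δ).Nonsingular x y) : scale hc h (.some x y hxy) =
      .some (c ^ 2 * x) (c ^ 3 * y) (nonsingular_scale hc h hxy) := rfl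

lemma scale_injective {δ δ' c : k} (hc : c ≠ 0) (h : δ' = c ^ 2 * δ) :
    Function.Injective (scale hc h) := by
  rw [injective_iff_map_eq_zero]
  rintro (_ | ⟨x, y, h₁⟩) h0
  · rfl
  · exact absurd h0 (Affine.Point.some_ne_zero _)

omit [DecidableEq k] in
/-- The point `(0, y)` on `W δ`, where `y ^ 2 = δ ^ 3`. -/
lemma nonsingular_zero [CharZero k] {δ y : k} (hδ : δ ≠ 0) (hy : y ^ 2 = δ ^ 3) :
    (W δ).Nonsingular 0 y := by
  rw [W_nonsingular]
  refine ⟨by rw [hy]; ring, Or.inl ?_⟩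
  simpa using (pow_ne_zero 2 hδ).symm

lemma double_aux [CharZero k] {x y : k} (hxy : (W (1 : k)).Nonsingular x y) (hy : y ≠ 0) :
    ∃ x' y' h', (2 : ℕ) • (Affine.Point.some x y hxy) = Affine.Point.some x' y' h' ∧
      x' * (4 * (x ^ 3 + x + 1)) = x ^ 4 - 2 * x ^ 2 - 8 * x + 1 := by
  have hne : y ≠ (W (1 : k)).negY x y := by
    rw [W_negY]
    intro h0
    apply hy
    have h1 : (2 : k) * y = 0 := by linear_combination h0
    rcases mul_eq_zero.1 h1 with h | h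
    · exact absurd h two_ne_zero
    · exact h
  have he := ((W_nonsingular _ _ _).1 hxy).1
  have key := Affine.Point.add_self_of_Y_ne (h₁ := hxy) hne
  refine ⟨_, _, _, (two_nsmul _).trans key, ?_⟩
  have hl : (W (1 : k)).slope x x y y * (2 * y) = 3 * x ^ 2 + 1 := by
    rw [slope_of_Y_ne rfl hne]
    simp only [W_negY, W_a₁, W_a₂, W_a₄]
    have h3 : y - -y = 2 * y := by ring
    rw [h3, div_mul_cancel₀ _ (mul_ne_zero two_ne_zero hy)]
    ring
  simp only [Affine.addX, W_a₁, W_a₂]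
  set l := (W (1 : k)).slope x x y y
  linear_combination (l * (2 * y) + 3 * x ^ 2 + 1) * hl - 4 * l ^ 2 * he

/-- The doubling orbit of `(0, 1)` on `y ^ 2 = x ^ 3 + x + 1`. -/
lemma orbit [CharZero k] (h : (W (1 : k)).Nonsingular 0 1) (n : ℕ) :
    ∃ x y h', (2 ^ (n + 1) : ℕ) • (Affine.Point.some (0 : k) 1 h) = Affine.Point.some x y h' ∧
      ∃ a c : ℤ, Odd a ∧ Odd c ∧ x * ((4 : k) ^ (n + 1) * c) = a := by
  induction n with
  | zero =>
    obtain ⟨x, y, h', e1, e2⟩ := double_aux h one_ne_zero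
    refine ⟨x, y, h', by simpa using e1, 1, 1, odd_one, odd_one, ?_⟩
    push_cast
    linear_combination e2
  | succ n ih =>
    obtain ⟨x, y, h', e1, a, c, ha, hc, e2⟩ := ih
    set b : ℤ := 4 ^ (n + 1) * c with hb
    have hbe : Even b := by
      rw [hb, pow_succ, mul_assoc]
      exact Even.mul_left (Even.mul_right (by decide) _) _
    have hbk : ((4 : k) ^ (n + 1) * c) = (b : k) := by rw [hb]; push_cast; ring
    rw [hbk] at e2
    have hc0 : c ≠ 0 := by rintro rfl; simp at hc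
    have hb0 : b ≠ 0 := mul_ne_zero (pow_ne_zero _ (by norm_num)) hc0
    have hbk0 : (b : k) ≠ 0 := by exact_mod_cast hb0
    have hodd : Odd (a ^ 3 + a * b ^ 2 + b ^ 3) := by
      have h1 : Odd (a ^ 3) := ha.pow
      have h2 : Even (a * b ^ 2) := Even.mul_left (hbe.pow_of_ne_zero (by norm_num)) _
      have h3 : Even (b ^ 3) := hbe.pow_of_ne_zero (by norm_num)
      exact (h1.add_even h2).add_even h3
    have hodd2 : Odd (a ^ 4 - 2 * a ^ 2 * b ^ 2 - 8 * a * b ^ 3 + b ^ 4) := by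
      have h1 : Odd (a ^ 4) := ha.pow
      have h2 : Even (2 * a ^ 2 * b ^ 2) := Even.mul_left (hbe.pow_of_ne_zero (by norm_num)) _
      have h3 : Even (8 * a * b ^ 3) := Even.mul_left (hbe.pow_of_ne_zero (by norm_num)) _
      have h4 : Even (b ^ 4) := hbe.pow_of_ne_zero (by norm_num)
      exact ((h1.sub_even h2).sub_even h3).add_even h4
    have he := ((W_nonsingular _ _ _).1 h').1
    have hmul : (x ^ 3 + x + 1) * (b : k) ^ 3 = ((a ^ 3 + a * b ^ 2 + b ^ 3 : ℤ) : k) := by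
      push_cast
      rw [← e2]
      ring
    have hy : y ≠ 0 := by
      rintro rfl
      have : ((a ^ 3 + a * b ^ 2 + b ^ 3 : ℤ) : k) = 0 := by
        rw [← hmul]
        have : x ^ 3 + x + 1 = 0 := by linear_combination -he
        rw [this, zero_mul]
      have h0 : a ^ 3 + a * b ^ 2 + b ^ 3 = 0 := by exact_mod_cast this
      rw [h0] at hodd
      exact absurd hodd (by decide)
    obtain ⟨x', y', h'', f1, f2⟩ := double_aux h' hy
    refine ⟨x', y', h'', ?_, a ^ 4 - 2 * a ^ 2 * b ^ 2 - 8 * a * b ^ 3 + b ^ 4,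
      c * (a ^ 3 + a * b ^ 2 + b ^ 3), hodd2, hc.mul hodd, ?_⟩
    · rw [← f1, ← e1, ← mul_nsmul, ← pow_succ]
    · have h1 : (x' * ((4 : k) ^ (n + 1 + 1) * ((c * (a ^ 3 + a * b ^ 2 + b ^ 3) : ℤ) : k))) =
          x' * (4 * (x ^ 3 + x + 1)) * (b : k) ^ 4 := by
        have : ((c * (a ^ 3 + a * b ^ 2 + b ^ 3) : ℤ) : k) = (c : k) *
          ((a ^ 3 + a * b ^ 2 + b ^ 3 : ℤ) : k) := by push_cast; ring
        rw [this, ← hmul]
        have h4 : (4 : k) ^ (n + 1 + 1) * ((c : k) * ((x ^ 3 + x + 1) * (b : k) ^ 3)) =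
          4 * ((4 : k) ^ (n + 1) * c) * ((x ^ 3 + x + 1) * (b : k) ^ 3) := by ring
        rw [h4, hbk]
        ring
      rw [h1, f2]
      push_cast
      rw [← e2]
      ring

/-- The multiples of `(0, 1)` on `y ^ 2 = x ^ 3 + x + 1` are infinitely many. -/
lemma orbit_injective [CharZero k] (h : (W (1 : k)).Nonsingular 0 1) :
    Function.Injective
      (fun n : ℕ => (2 ^ (n + 1) : ℕ) • (Affine.Point.some (0 : k) 1 h)) := by
  have key : ∀ n m : ℕ, n < m →
      (2 ^ (n + 1) : ℕ) • (Affine.Point.some (0 : k) 1 h) ≠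
        (2 ^ (m + 1) : ℕ) • (Affine.Point.some (0 : k) 1 h) := by
    intro n m hnm he
    obtain ⟨x, y, h', e1, a, c, ha, hc, e2⟩ := orbit h n
    obtain ⟨x', y', h'', e1', a', c', ha', hc', e2'⟩ := orbit h m
    rw [e1, e1', Affine.Point.some.injEq] at he
    obtain ⟨rfl, -⟩ := he
    obtain ⟨j, rfl⟩ := Nat.exists_eq_add_of_lt hnm
    have h1 : (a : k) * (4 ^ (j + 1) * c') = a' * c := by
      rw [← e2, ← e2']
      rw [show n + j + 1 + 1 = (n + 1) + (j + 1) by ring, pow_add]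
      ring
    have h2 : a * (4 ^ (j + 1) * c') = a' * c := by exact_mod_cast h1
    have h3 : Odd (a' * c) := ha'.mul hc
    rw [← h2] at h3
    have h4 : Even (a * (4 ^ (j + 1) * c')) := by
      apply Even.mul_left
      apply Even.mul_right
      exact Even.pow_of_ne_zero (by decide) (by omega)
    exact (Int.not_even_iff_odd.2 h3) h4
  intro n m hnm
  rcases lt_trichotomy n m with hlt | heq | hgt
  · exact absurd hnm (key n m hlt)
  · exact heq
  · exact absurd hnm.symm (key m n hgt)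

end PinkTw
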