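import Mathlib
import Pool.Agent.PinkTw.Curve

/-!
The abelian scheme `A = E^(t) x E^(1-t) x E^(t(1-t))` over `S = P^1 minus {0, 1, ∞}`, where
`E^(δ) : y ^ 2 = x ^ 3 + δ ^ 2 x + δ ^ 3`, with its closed points and its Zariski topology.
-/

namespace PinkTw

open WeierstrassCurve MvPolynomial

/-- The closed points of the base `S = P^1 minus {0, 1, ∞}`. -/
def Base (k : Type*) [Field k] : Type _ := {t : k // t ≠ 0 ∧ t ≠ 1}

variable {k : Type*} [Field k]

/-- The three twisting functions `t`, `1 - t`, `t (1 - t)` on `S`. -/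
def tw (t : Base k) : Fin 3 → k := ![t.1, 1 - t.1, t.1 * (1 - t.1)]

/-- The group of closed points of the fibre of `A` at `t`. -/
abbrev Fib (t : Base k) : Type _ := ∀ i : Fin 3, (W (tw t i)).Point

/-- The closed points of `A`. -/
structure Tot (k : Type*) [Field k] where
  /-- the point of the base -/
  base : Base k
  /-- the point of the fibre -/
  pt : Fib base

/-- Homogeneous coordinates `(X : Y : Z)` of a point of `E^(δ)` in the projective plane. -/
def hcoord {δ : k} : (W δ).Point → Fin 3 → k
  | .zero => ![0, 1, 0]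
  | .some x y _ => ![x, y, 1]

/-- The variables: `none` is `t`, `some (i, j)` is the `j`-th homogeneous coordinate on the
`i`-th factor. -/
abbrev Var : Type := Option (Fin 3 × Fin 3)

/-- The values of the variables at a closed point of `A`. -/
def coords (p : Tot k) : Var → k
  | none => p.base.1
  | some (i, j) => hcoord (p.pt i) j

/-- The degree in the coordinates of the `i`-th factor. -/
def weight (i : Fin 3) : Var → ℕ
  | none => 0
  | some (i', _) => if i' = i then 1 else 0

/-- Polynomials in `t` and the coordinates, homogeneous in the coordinates of each factor. -/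
def MultiHom (F : MvPolynomial Var k) : Prop :=
  ∀ i, ∃ n, IsWeightedHomogeneous (weight i) F n

/-- Zariski closed sets: common zeros of multihomogeneous polynomials. -/
def IsZClosed (Z : Set (Tot k)) : Prop :=
  ∃ 𝓕 : Set (MvPolynomial Var k), (∀ F ∈ 𝓕, MultiHom F) ∧
    Z = {p | ∀ F ∈ 𝓕, eval (coords p) F = 0}

lemma multiHom_mul {F G : MvPolynomial Var k} (hF : MultiHom F) (hG : MultiHom G) :
    MultiHom (F * G) := by
  intro i
  obtain ⟨n, hn⟩ := hF i
  obtain ⟨m, hm⟩ := hG i
  exact ⟨n + m, hn.mul hm⟩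

/-- The Zariski topology on the closed points of `A`, as a closed subset of `S x (P^2)^3`. -/
instance : TopologicalSpace (Tot k) :=
  TopologicalSpace.ofClosed {Z | IsZClosed Z}
    (by
      refine ⟨{1}, ?_, ?_⟩
      · rintro F rfl i
        exact ⟨0, isWeightedHomogeneous_one k _⟩
      · ext p
        simp)
    (by
      intro A hA
      have hA' : ∀ Z ∈ A, ∃ 𝓕 : Set (MvPolynomial Var k), (∀ F ∈ 𝓕, MultiHom F) ∧
          Z = {p | ∀ F ∈ 𝓕, eval (coords p) F = 0} := fun Z hZ => hA hZ
      choose! 𝓕 h1 h2 using hA'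
      refine ⟨⋃ Z ∈ A, 𝓕 Z, ?_, ?_⟩
      · intro F hF
        simp only [Set.mem_iUnion] at hF
        obtain ⟨Z, hZ, hF⟩ := hF
        exact h1 Z hZ F hF
      · ext p
        simp only [Set.mem_sInter, Set.mem_iUnion, Set.mem_ofPred_eq, forall_exists_index]
        constructor
        · intro h F Z hZ hF
          have := h Z hZ
          rw [h2 Z hZ] at this
          exact this F hF
        · intro h Z hZ
          rw [h2 Z hZ]
          intro F hF
          exact h F Z hZ hF)
    (by
      rintro A ⟨𝓕, h1, rfl⟩ B ⟨𝓖, h2, rfl⟩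
      refine ⟨{H | ∃ F ∈ 𝓕, ∃ G ∈ 𝓖, H = F * G}, ?_, ?_⟩
      · rintro H ⟨F, hF, G, hG, rfl⟩
        exact multiHom_mul (h1 F hF) (h2 G hG)
      · ext p
        simp only [Set.mem_union, Set.mem_ofPred_eq]
        constructor
        · rintro (h | h) H ⟨F, hF, G, hG, rfl⟩
          · rw [map_mul, h F hF, zero_mul]
          · rw [map_mul, h G hG, mul_zero]
        · intro h
          by_contra hne
          rw [not_or] at hne
          obtain ⟨hne1, hne2⟩ := hne
          push Not at hne1 hne2
          obtain ⟨F, hF, hF0⟩ := hne1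
          obtain ⟨G, hG, hG0⟩ := hne2
          have := h (F * G) ⟨F, hF, G, hG, rfl⟩
          rw [map_mul] at this
          exact (mul_ne_zero hF0 hG0) this)

lemma isClosed_iff {Z : Set (Tot k)} : IsClosed Z ↔ IsZClosed Z := by
  rw [← isOpen_compl_iff]
  show Zᶜᶜ ∈ {Z | IsZClosed Z} ↔ _
  rw [compl_compl]
  rfl

lemma isClosed_zero {F : MvPolynomial Var k} (hF : MultiHom F) :
    IsClosed {p : Tot k | eval (coords p) F = 0} := by
  rw [isClosed_iff]
  refine ⟨{F}, ?_, ?_⟩
  · rintro G rfl
    exact hF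
  · ext p
    simp

/-- The fibre of `A` at `t`, as a subset of `A`. -/
def fibre (t : Base k) : Set (Tot k) := {p | p.base = t}

/-- The inclusion of a fibre. -/
def inFib (t : Base k) (Q : Fib t) : Tot k := ⟨t, Q⟩

variable [DecidableEq k]

/-- Group subschemes of `A` over `S`: Zariski closed subsets all of whose fibres are subgroups. -/
def IsGroupSubscheme (G : Set (Tot k)) : Prop :=
  IsClosed G ∧ ∀ t : Base k, ∃ H : AddSubgroup (Fib t), ∀ Q : Fib t, inFib t Q ∈ G ↔ Q ∈ H

/-- The set `A^{[> d]}`: the union of the Zariski closed subgroups `H` of the fibres of `A` whose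
codimension in the fibre is `> d`. -/
def exceptional (k : Type*) [Field k] [DecidableEq k] (d : ℕ) : Set (Tot k) :=
  {p | ∃ H : AddSubgroup (Fib p.base), p.pt ∈ H ∧
    IsClosed (inFib p.base '' (H : Set (Fib p.base))) ∧
    topologicalKrullDim (inFib p.base '' (H : Set (Fib p.base))) + d <
      topologicalKrullDim (fibre p.base)}

/-- The curve `X` in `A`: the points `(t; (0, u ^ 3), (0, v ^ 3), (0, (u v) ^ 3))` with
`u ^ 2 = t` and `v ^ 2 = 1 - t`. They are the images of the point `(0, 1)` of
`y ^ 2 = x ^ 3 + x + 1` under the isomorphisms `(x, y) ↦ (c ^ 2 x, c ^ 3 y)`, `c = u, v, u v`. -/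
def X (k : Type*) [Field k] : Set (Tot k) :=
  {p | ∃ u v : k, u ^ 2 = p.base.1 ∧ v ^ 2 = 1 - p.base.1 ∧
    (∃ h, p.pt 0 = .some 0 (u ^ 3) h) ∧ (∃ h, p.pt 1 = .some 0 (v ^ 3) h) ∧
    ∃ h, p.pt 2 = .some 0 ((u * v) ^ 3) h}

end PinkTw
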