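import Mathlib

/-!
Spaces whose closed sets are finite or (almost) everything.
-/

namespace PinkTw

open TopologicalSpace Set

/-- In a `T1` space a finite irreducible set is a subsingleton. -/
lemma subsingleton_of_finite {T : Type*} [TopologicalSpace T] [T1Space T] {s : Set T}
    (hs : IsPreirreducible s) (hf : s.Finite) : s.Subsingleton := by
  intro a ha b hb
  by_contra hab
  rw [isPreirreducible_iff_isClosed_union_isClosed] at hs
  have h := hs {a} (s \ {a}) isClosed_singleton (hf.subset sdiff_subset).isClosed (by
    intro x hx
    by_cases hxa : x = a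
    · exact Or.inl hxa
    · exact Or.inr ⟨hx, hxa⟩)
  rcases h with h | h
  · exact hab (h hb).symm
  · exact (h ha).2 rfl

/-- If every closed set is finite or contains everything but one point, the dimension is at most
one. -/
lemma dim_le_one {T : Type*} [TopologicalSpace T] [T1Space T] (O : T)
    (h : ∀ Z : Set T, IsClosed Z → Z.Finite ∨ ∀ x, x ≠ O → x ∈ Z) :
    topologicalKrullDim T ≤ 1 := by
  unfold topologicalKrullDim
  rw [Order.krullDim_le_one_iff]
  intro Z
  rcases h Z Z.isClosed with hZ | hZ
  · left
    have hsub := subsingleton_of_finite Z.isIrreducible.2 hZ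
    intro Y hY z hz
    obtain ⟨y, hy⟩ := Y.isIrreducible.1
    have hy' : y ∈ Z := hY hy
    rw [hsub hz hy']
    exact hy
  · by_cases hs : (Z : Set T).Subsingleton
    · left
      intro Y hY z hz
      obtain ⟨y, hy⟩ := Y.isIrreducible.1
      have hy' : y ∈ Z := hY hy
      rw [hs hz hy']
      exact hy
    · right
      intro Y hY
      have hirr := (isPreirreducible_iff_isClosed_union_isClosed.1 Y.isIrreducible.2)
        (Z : Set T) {O} Z.isClosed isClosed_singleton (by
          intro y _
          by_cases hyO : y = O
          · exact Or.inr hyO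
          · exact Or.inl (hZ y hyO))
      rcases hirr with h1 | h1
      · exact h1
      · exfalso
        apply hs
        intro a ha b hb
        have e1 : a = O := h1 (hY ha)
        have e2 : b = O := h1 (hY hb)
        rw [e1, e2]

/-- An infinite set every closed subset of which is finite or everything is irreducible. -/
lemma irreducible_of {T : Type*} [TopologicalSpace T] {X : Set T} (hinf : X.Infinite)
    (h : ∀ Z : Set T, IsClosed Z → (X ∩ Z).Finite ∨ X ⊆ Z) : IsIrreducible X := by
  refine ⟨hinf.nonempty, ?_⟩
  rw [isPreirreducible_iff_isClosed_union_isClosed]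
  intro z₁ z₂ h₁ h₂ hX
  rcases h z₁ h₁ with f1 | f1
  · rcases h z₂ h₂ with f2 | f2
    · exfalso
      apply hinf
      apply (f1.union f2).subset
      intro x hx
      rcases hX hx with hx' | hx'
      · exact Or.inl ⟨hx, hx'⟩
      · exact Or.inr ⟨hx, hx'⟩
    · exact Or.inr f2
  · exact Or.inl f1

/-- An infinite subset of a `T1` space every closed subset of which is finite or everything has
dimension one. -/
lemma dim_eq_one {T : Type*} [TopologicalSpace T] [T1Space T] {X : Set T} (hinf : X.Infinite)
    (h : ∀ Z : Set T, IsClosed Z → (X ∩ Z).Finite ∨ X ⊆ Z) : topologicalKrullDim X = 1 := by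
  have hclosed : ∀ Z : Set X, IsClosed Z → Z.Finite ∨ Z = univ := by
    intro Z hZ
    obtain ⟨Y, hY, rfl⟩ := isClosed_induced_iff.1 hZ
    rcases h Y hY with h1 | h1
    · left
      apply Set.Finite.of_finite_image _ Subtype.val_injective.injOn
      apply h1.subset
      rintro _ ⟨x, hx, rfl⟩
      exact ⟨x.2, hx⟩
    · right
      ext x
      simp only [mem_preimage, mem_univ, iff_true]
      exact h1 x.2
  obtain ⟨x₀, hx₀⟩ := hinf.nonempty
  apply le_antisymm
  · apply dim_le_one (⟨x₀, hx₀⟩ : X)
    intro Z hZ
    rcases hclosed Z hZ with h1 | h1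
    · exact Or.inl h1
    · right
      intro x _
      rw [h1]
      trivial
  · unfold topologicalKrullDim
    rw [Order.one_le_krullDim_iff]
    have hirr : IsIrreducible (univ : Set X) := by
      apply irreducible_of
      · have : Infinite X := hinf.to_subtype
        exact infinite_univ
      · intro Z hZ
        rcases hclosed Z hZ with h1 | h1
        · left
          exact h1.subset inter_subset_right
        · right
          rw [h1]
    refine ⟨⟨{⟨x₀, hx₀⟩}, isIrreducible_singleton, isClosed_singleton⟩,
      ⟨univ, hirr, isClosed_univ⟩, ?_⟩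
    rw [lt_iff_le_not_ge]
    refine ⟨fun x _ => mem_univ x, ?_⟩
    intro hle
    apply hinf
    apply (finite_singleton x₀).subset
    intro x hx
    have h1 : (⟨x, hx⟩ : X) ∈ ({⟨x₀, hx₀⟩} : Set X) := hle (mem_univ (⟨x, hx⟩ : X))
    have h2 : (⟨x, hx⟩ : X) = ⟨x₀, hx₀⟩ := h1
    exact congrArg Subtype.val h2

end PinkTw
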