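import Mathlib
import Pool.Agent.PinkTw.Defs
import Pool.Agent.PinkTw.Topo

/-!
Regular functions on the curves `W δ` and on the rational curve `X`.
-/

namespace PinkTw

open WeierstrassCurve

variable {k : Type*} [Field k]

/-! ### Basic facts on coordinates -/

lemma tw_ne (t : Base k) (i : Fin 3) : tw t i ≠ 0 := by
  have h1 := t.2.1
  have h2 : 1 - t.1 ≠ 0 := sub_ne_zero.2 (Ne.symm t.2.2)
  fin_cases i
  · exact h1
  · exact h2
  · exact mul_ne_zero h1 h2

/-- Two points with proportional coordinates are equal. -/
lemma eq_of_minors {δ : k} {P Q : (W δ).Point}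
    (h : ∀ a b : Fin 3, hcoord P a * hcoord Q b = hcoord P b * hcoord Q a) : P = Q := by
  have h01 := h 0 1
  have h02 := h 0 2
  have h12 := h 1 2
  rcases P with _ | ⟨x, y, hP⟩ <;> rcases Q with _ | ⟨x', y', hQ⟩
  · rfl
  · simp [hcoord] at h12
  · simp [hcoord] at h12
  · simp [hcoord] at h02 h12
    subst h02
    subst h12
    rfl

lemma hcoord_injective {δ : k} : Function.Injective (hcoord (δ := δ)) := by
  intro P Q h
  apply eq_of_minors
  intro a b
  rw [h, mul_comm]

lemma coords_injective : Function.Injective (coords (k := k)) := by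
  rintro ⟨t, P⟩ ⟨s, Q⟩ h
  have h0 : t = s := by
    apply Subtype.ext
    exact congrFun h none
  subst h0
  have : P = Q := by
    funext i
    apply hcoord_injective
    funext j
    exact congrFun h (some (i, j))
  rw [this]

/-- Minors are multihomogeneous. -/
lemma multiHom_t (t : k) : MultiHom (MvPolynomial.X none - MvPolynomial.C t : MvPolynomial Var k) := by
  intro i
  refine ⟨0, ?_⟩
  apply Submodule.sub_mem (MvPolynomial.weightedHomogeneousSubmodule k (weight i) 0)
  · exact MvPolynomial.isWeightedHomogeneous_X k (weight i) none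
  · exact MvPolynomial.isWeightedHomogeneous_C (weight i) t

lemma multiHom_lin (i a b : Fin 3) (u v : k) :
    MultiHom (MvPolynomial.C u * MvPolynomial.X (some (i, a)) -
      MvPolynomial.C v * MvPolynomial.X (some (i, b)) : MvPolynomial Var k) := by
  intro l
  refine ⟨weight l (some (i, a)), ?_⟩
  have hw : weight l (some (i, b)) = weight l (some (i, a)) := rfl
  apply Submodule.sub_mem (MvPolynomial.weightedHomogeneousSubmodule k (weight l) _)
  · have := (MvPolynomial.isWeightedHomogeneous_C (weight l) u).mul
      (MvPolynomial.isWeightedHomogeneous_X k (weight l) (some (i, a)))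
    rw [zero_add] at this
    exact this
  · have := (MvPolynomial.isWeightedHomogeneous_C (weight l) v).mul
      (MvPolynomial.isWeightedHomogeneous_X k (weight l) (some (i, b)))
    rw [zero_add, hw] at this
    exact this

lemma multiHom_bilin (i j a b c d : Fin 3) (u v : k) :
    MultiHom (MvPolynomial.C u * (MvPolynomial.X (some (i, a)) * MvPolynomial.X (some (j, b))) -
      MvPolynomial.C v * (MvPolynomial.X (some (i, c)) * MvPolynomial.X (some (j, d))) :
        MvPolynomial Var k) := by
  intro l
  refine ⟨weight l (some (i, a)) + weight l (some (j, b)), ?_⟩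
  have hw : weight l (some (i, c)) = weight l (some (i, a)) := rfl
  have hw' : weight l (some (j, d)) = weight l (some (j, b)) := rfl
  apply Submodule.sub_mem (MvPolynomial.weightedHomogeneousSubmodule k (weight l) _)
  · have := (MvPolynomial.isWeightedHomogeneous_C (weight l) u).mul
      ((MvPolynomial.isWeightedHomogeneous_X k (weight l) (some (i, a))).mul
      (MvPolynomial.isWeightedHomogeneous_X k (weight l) (some (j, b))))
    rw [zero_add] at this
    exact this
  · have := (MvPolynomial.isWeightedHomogeneous_C (weight l) v).mul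
      ((MvPolynomial.isWeightedHomogeneous_X k (weight l) (some (i, c))).mul
      (MvPolynomial.isWeightedHomogeneous_X k (weight l) (some (j, d))))
    rw [zero_add, hw, hw'] at this
    exact this

lemma isClosed_fibre (t : Base k) : IsClosed {p : Tot k | p.base = t} := by
  have h := isClosed_zero (multiHom_t t.1)
  convert h using 1
  ext p
  simp only [Set.mem_ofPred_eq, map_sub, MvPolynomial.eval_X, MvPolynomial.eval_C, coords,
    sub_eq_zero]
  exact Subtype.ext_iff

instance : T1Space (Tot k) := by
  constructor
  intro p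
  have h : ({p} : Set (Tot k)) = {q | q.base = p.base} ∩ ⋂ (i : Fin 3) (a : Fin 3) (b : Fin 3),
      {q : Tot k | MvPolynomial.eval (coords q)
        (MvPolynomial.C (hcoord (p.pt i) b) * MvPolynomial.X (some (i, a)) -
          MvPolynomial.C (hcoord (p.pt i) a) * MvPolynomial.X (some (i, b))) = 0} := by
    ext q
    simp only [Set.mem_singleton_iff, Set.mem_inter_iff, Set.mem_iInter, Set.mem_ofPred_eq, map_sub,
      map_mul, MvPolynomial.eval_X, MvPolynomial.eval_C, coords, sub_eq_zero]
    constructor
    · rintro rfl
      exact ⟨rfl, fun i a b => mul_comm _ _⟩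
    · rintro ⟨h1, h2⟩
      obtain ⟨t, P⟩ := p
      obtain ⟨s, Q⟩ := q
      simp only at h1
      subst h1
      have : Q = P := by
        funext i
        apply eq_of_minors
        intro a b
        have := h2 i a b
        simp only at this
        rw [mul_comm, this, mul_comm]
      rw [this]
  rw [h]
  exact (isClosed_fibre _).inter (isClosed_iInter fun i => isClosed_iInter fun a =>
    isClosed_iInter fun b => isClosed_zero (multiHom_lin _ _ _ _ _))

/-! ### Regular functions on the affine part of `W δ` -/

/-- Functions on the points of `W δ` given by `A (x) + y B (x)` on the affine part. -/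
def Reg {δ : k} (g : (W δ).Point → k) : Prop :=
  ∃ A B : Polynomial k, ∀ x y h, g (.some x y h) = A.eval x + y * B.eval x

lemma reg_const {δ : k} (c : k) : Reg (fun _ : (W δ).Point => c) :=
  ⟨Polynomial.C c, 0, fun x y h => by simp⟩

lemma reg_add {δ : k} {f g : (W δ).Point → k} (hf : Reg f) (hg : Reg g) :
    Reg (fun Q => f Q + g Q) := by
  obtain ⟨A, B, h1⟩ := hf
  obtain ⟨A', B', h2⟩ := hg
  refine ⟨A + A', B + B', fun x y h => ?_⟩
  simp only [h1, h2, Polynomial.eval_add]
  ring

/-- The cubic `x ^ 3 + δ ^ 2 x + δ ^ 3`. -/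
noncomputable def cub (δ : k) : Polynomial k :=
  Polynomial.X ^ 3 + (Polynomial.C (δ ^ 2) * Polynomial.X + Polynomial.C (δ ^ 3))

lemma cub_eval (δ x : k) : (cub δ).eval x = x ^ 3 + (δ ^ 2 * x + δ ^ 3) := by
  simp [cub]

lemma cub_natDegree (δ : k) : (cub δ).natDegree = 3 := by
  unfold cub
  rw [Polynomial.natDegree_add_eq_left_of_natDegree_lt]
  · simp
  · have h1 : (Polynomial.C (δ ^ 2) * Polynomial.X + Polynomial.C (δ ^ 3)).natDegree ≤ 1 :=
      Polynomial.natDegree_linear_le
    simp only [Polynomial.natDegree_pow, Polynomial.natDegree_X, mul_one]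
    omega

lemma reg_mul {δ : k} {f g : (W δ).Point → k} (hf : Reg f) (hg : Reg g) :
    Reg (fun Q => f Q * g Q) := by
  obtain ⟨A, B, h1⟩ := hf
  obtain ⟨A', B', h2⟩ := hg
  refine ⟨A * A' + cub δ * (B * B'), A * B' + B * A', fun x y h => ?_⟩
  simp only [h1, h2, Polynomial.eval_add, Polynomial.eval_mul, cub_eval]
  have he := ((W_nonsingular _ _ _).1 h).1
  linear_combination (Polynomial.eval x B * Polynomial.eval x B') * he

lemma reg_eval {δ : k} (γ : (W δ).Point → Tot k) (hγ : ∀ v, Reg (fun Q => coords (γ Q) v))
    (F : MvPolynomial Var k) : Reg (fun Q => MvPolynomial.eval (coords (γ Q)) F) := by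
  induction F using MvPolynomial.induction_on with
  | C a => simpa using reg_const a
  | add p q hp hq => simpa using reg_add hp hq
  | mul_X p v hp => simpa using reg_mul hp (hγ v)

lemma reg_finite {δ : k} {g : (W δ).Point → k} (hg : Reg g) :
    {Q | g Q = 0}.Finite ∨ ∀ x y h, g (.some x y h) = 0 := by
  obtain ⟨A, B, hAB⟩ := hg
  by_cases hN : A ^ 2 - cub δ * B ^ 2 = 0
  · right
    have hB : B = 0 := by
      by_contra hB
      have h1 : A ^ 2 = cub δ * B ^ 2 := sub_eq_zero.1 hN
      have h2 := congrArg Polynomial.natDegree h1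
      have hc : cub δ ≠ 0 := by
        intro h0
        have := cub_natDegree δ
        rw [h0] at this
        simp at this
      rw [Polynomial.natDegree_pow, Polynomial.natDegree_mul hc (pow_ne_zero _ hB),
        Polynomial.natDegree_pow, cub_natDegree] at h2
      omega
    have hA : A = 0 := by
      rw [hB] at hN
      simpa using hN
    intro x y h
    rw [hAB, hA, hB]
    simp
  · left
    set N := A ^ 2 - cub δ * B ^ 2 with hNdef
    have hfin : (insert (.zero : (W δ).Point) (⋃ x ∈ {x | N.IsRoot x},
        ⋃ y ∈ {y : k | (Polynomial.X ^ 2 - Polynomial.C ((cub δ).eval x)).IsRoot y},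
        {Q : (W δ).Point | ∃ h, Q = .some x y h})).Finite := by
      apply Set.Finite.insert
      apply Set.Finite.biUnion
      · exact Polynomial.finite_setOfPred_isRoot hN
      · intro x _
        apply Set.Finite.biUnion
        · exact Polynomial.finite_setOfPred_isRoot (Polynomial.X_pow_sub_C_ne_zero (by norm_num) _)
        · intro y _
          apply Set.Subsingleton.finite
          rintro P ⟨h, rfl⟩ Q ⟨h', rfl⟩
          rfl
    apply hfin.subset
    intro Q hQ
    rcases Q with _ | ⟨x, y, h⟩
    · exact Set.mem_insert _ _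
    · right
      have he := ((W_nonsingular _ _ _).1 h).1
      simp only [Set.mem_iUnion, Set.mem_ofPred_eq]
      refine ⟨x, ?_, y, ?_, h, rfl⟩
      · have h0 : A.eval x + y * B.eval x = 0 := by rw [← hAB x y h]; exact hQ
        rw [hNdef]
        simp only [Polynomial.IsRoot, Polynomial.eval_sub, Polynomial.eval_mul, Polynomial.eval_pow,
          cub_eval]
        linear_combination (Polynomial.eval x A - y * Polynomial.eval x B) * h0 +
          (Polynomial.eval x B) ^ 2 * he
      · simp only [Polynomial.IsRoot, Polynomial.eval_sub, Polynomial.eval_pow, Polynomial.eval_X,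
          Polynomial.eval_C, cub_eval]
        rw [he]
        ring

/-- Preimages of Zariski closed sets under maps with regular coordinates. -/
lemma closed_preimage {δ : k} (γ : (W δ).Point → Tot k)
    (hγ : ∀ v, Reg (fun Q => coords (γ Q) v)) (Z : Set (Tot k)) (hZ : IsClosed Z) :
    (γ ⁻¹' Z).Finite ∨ ∀ x y h, γ (.some x y h) ∈ Z := by
  obtain ⟨𝓕, -, rfl⟩ := isClosed_iff.1 hZ
  by_cases hall : ∀ F ∈ 𝓕, ∀ x y h, MvPolynomial.eval (coords (γ (.some x y h))) F = 0
  · right
    intro x y h F hF
    exact hall F hF x y h
  · left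
    push Not at hall
    obtain ⟨F, hF, x, y, h, hne⟩ := hall
    rcases reg_finite (reg_eval γ hγ F) with h1 | h1
    · apply h1.subset
      intro Q hQ
      exact hQ F hF
    · exact absurd (h1 x y h) hne

end PinkTw
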