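import Mathlib
import Pool.Agent.PinkTw.Reg

/-!
The fibres of `A` have dimension at least three.
-/

namespace PinkTw

open WeierstrassCurve

variable {k : Type*} [Field k]

/-- Moving the `i`-th component of a point of a fibre. -/
def upd (t : Base k) (Q : Fib t) (i : Fin 3) (S : (W (tw t i)).Point) : Fib t :=
  Function.update Q i S

lemma reg_upd (t : Base k) (Q : Fib t) (i : Fin 3) (v : Var) :
    Reg (fun S : (W (tw t i)).Point => coords (inFib t (upd t Q i S)) v) := by
  rcases v with _ | ⟨j, l⟩
  · exact reg_const t.1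
  · by_cases hj : j = i
    · subst hj
      have e : ∀ S : (W (tw t j)).Point, coords (inFib t (upd t Q j S)) (some (j, l)) =
          hcoord S l := by
        intro S
        show hcoord ((upd t Q j S : Fib t) j) l = _
        unfold upd
        rw [Function.update_self]
      simp only [e]
      fin_cases l
      · exact ⟨Polynomial.X, 0, fun x y h => by simp [hcoord]⟩
      · exact ⟨0, 1, fun x y h => by simp [hcoord]⟩
      · exact ⟨1, 0, fun x y h => by simp [hcoord]⟩
    · have e : ∀ S : (W (tw t i)).Point, coords (inFib t (upd t Q i S)) (some (j, l)) =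
          hcoord (Q j) l := by
        intro S
        show hcoord ((upd t Q i S : Fib t) j) l = _
        unfold upd
        rw [Function.update_of_ne hj]
      simp only [e]
      exact reg_const _

/-- The points whose first `n` components are affine and whose other components are those
of `R`. -/
def U (t : Base k) (n : ℕ) (R : Fib t) : Set (Fib t) :=
  {Q | ∀ i : Fin 3, (i.1 < n → Q i ≠ 0) ∧ (n ≤ i.1 → Q i = R i)}

lemma affine_infinite [CharZero k] [IsAlgClosed k] (δ : k) (hδ : δ ≠ 0) :
    {S : (W δ).Point | S ≠ 0}.Infinite := by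
  have := W_isElliptic hδ
  have h : ∀ x : k, ∃ y h, (Affine.Point.some x y h : (W δ).Point) ≠ 0 := by
    intro x
    obtain ⟨y, hy⟩ := IsAlgClosed.exists_pow_nat_eq (x ^ 3 + δ ^ 2 * x + δ ^ 3) (n := 2)
      (by norm_num)
    exact ⟨y, Affine.equation_iff_nonsingular.1 ((W_equation _ _ _).2 hy),
      Affine.Point.some_ne_zero _⟩
  choose y hy hne using h
  have hinj : Function.Injective fun x => (Affine.Point.some x (y x) (hy x) : (W δ).Point) := by
    intro a b hab
    simp only [Affine.Point.some.injEq] at hab
    exact hab.1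
  apply (Set.infinite_range_of_injective hinj).mono
  rintro _ ⟨x, rfl⟩
  exact hne x

lemma U_irreducible [CharZero k] [IsAlgClosed k] (t : Base k) (Z₁ Z₂ : Set (Tot k))
    (h₁ : IsClosed Z₁) (h₂ : IsClosed Z₂) (n : ℕ) (hn : n ≤ 3) : ∀ R : Fib t,
    (∀ Q ∈ U t n R, inFib t Q ∈ Z₁ ∪ Z₂) →
      (∀ Q ∈ U t n R, inFib t Q ∈ Z₁) ∨ (∀ Q ∈ U t n R, inFib t Q ∈ Z₂) := by
  induction n with
  | zero =>
    intro R hR
    have e : ∀ Q ∈ U t 0 R, Q = R := by
      intro Q hQ
      funext i
      exact (hQ i).2 (Nat.zero_le _)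
    have hR' : R ∈ U t 0 R := fun i => ⟨fun h => absurd h (Nat.not_lt_zero _), fun _ => rfl⟩
    rcases hR R hR' with h | h
    · left
      intro Q hQ
      rwa [e Q hQ]
    · right
      intro Q hQ
      rwa [e Q hQ]
  | succ n ih =>
    intro R hR
    have hn' : n < 3 := hn
    set i₀ : Fin 3 := ⟨n, hn'⟩ with hi₀
    -- the slices
    have hsl : ∀ S : (W (tw t i₀)).Point, S ≠ 0 → U t n (upd t R i₀ S) ⊆ U t (n + 1) R := by
      intro S hS Q hQ i
      refine ⟨fun hi => ?_, fun hi => ?_⟩
      · rcases Nat.lt_succ_iff_lt_or_eq.1 hi with h | h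
        · exact (hQ i).1 h
        · have e : i = i₀ := Fin.ext h
          subst e
          rw [(hQ _).2 le_rfl]
          unfold upd
          rw [Function.update_self]
          exact hS
      · rw [(hQ i).2 (by omega)]
        unfold upd
        rw [Function.update_of_ne]
        intro e
        rw [e] at hi
        simp [hi₀] at hi
    have hback : ∀ Q ∈ U t (n + 1) R, ∀ S : (W (tw t i₀)).Point,
        upd t Q i₀ S ∈ U t n (upd t R i₀ S) := by
      intro Q hQ S i
      refine ⟨fun hi => ?_, fun hi => ?_⟩
      · unfold upd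
        rw [Function.update_of_ne]
        · exact (hQ i).1 (by omega)
        · intro e
          rw [e] at hi
          simp [hi₀] at hi
      · by_cases e : i = i₀
        · subst e
          unfold upd
          rw [Function.update_self, Function.update_self]
        · unfold upd
          rw [Function.update_of_ne e, Function.update_of_ne e]
          apply (hQ i).2
          rcases Nat.lt_or_ge n i.1 with h | h
          · exact h
          · exact absurd (Fin.ext (le_antisymm h hi)) e
    have hcase : ∀ S : (W (tw t i₀)).Point, S ≠ 0 →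
        (∀ Q ∈ U t n (upd t R i₀ S), inFib t Q ∈ Z₁) ∨
        (∀ Q ∈ U t n (upd t R i₀ S), inFib t Q ∈ Z₂) := by
      intro S hS
      apply ih (by omega)
      intro Q hQ
      exact hR Q (hsl S hS hQ)
    -- from infinitely many slices to all
    have hext : ∀ Z : Set (Tot k), IsClosed Z →
        {S : (W (tw t i₀)).Point | ∀ Q ∈ U t n (upd t R i₀ S), inFib t Q ∈ Z}.Infinite →
        ∀ Q ∈ U t (n + 1) R, inFib t Q ∈ Z := by
      intro Z hZ hinf Q hQ
      have h0 : Q i₀ ≠ 0 := (hQ i₀).1 (Nat.lt_succ_self n)
      rcases closed_preimage (fun S => inFib t (upd t Q i₀ S)) (reg_upd t Q i₀) Z hZ with h | h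
      · exfalso
        apply hinf
        apply h.subset
        intro S hS
        exact hS _ (hback Q hQ S)
      · rcases hQi : Q i₀ with _ | ⟨x, y, hxy⟩
        · exact absurd hQi h0
        · have := h x y hxy
          rw [← hQi] at this
          unfold upd at this
          rwa [Function.update_eq_self] at this
    have hinf := affine_infinite (tw t i₀) (tw_ne t i₀)
    by_cases hf : {S : (W (tw t i₀)).Point |
        ∀ Q ∈ U t n (upd t R i₀ S), inFib t Q ∈ Z₁}.Infinite
    · exact Or.inl (hext Z₁ h₁ hf)
    · right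
      apply hext Z₂ h₂
      intro hf2
      apply hinf
      apply ((Set.not_infinite.1 hf).union hf2).subset
      intro S hS
      rcases hcase S hS with h | h
      · exact Or.inl h
      · exact Or.inr h

/-- The points of the fibre with given `i`-th component form a closed set. -/
lemma isClosed_slice (t : Base k) (i : Fin 3) (P : (W (tw t i)).Point) :
    IsClosed (inFib t '' {Q | Q i = P}) := by
  have h : inFib t '' {Q | Q i = P} = {q : Tot k | q.base = t} ∩ ⋂ (a : Fin 3) (b : Fin 3),
      {q : Tot k | MvPolynomial.eval (coords q)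
        (MvPolynomial.C (hcoord P b) * MvPolynomial.X (some (i, a)) -
          MvPolynomial.C (hcoord P a) * MvPolynomial.X (some (i, b))) = 0} := by
    ext q
    simp only [Set.mem_image, Set.mem_inter_iff, Set.mem_iInter, Set.mem_ofPred_eq, map_sub,
      map_mul, MvPolynomial.eval_X, MvPolynomial.eval_C, coords, sub_eq_zero]
    constructor
    · rintro ⟨Q, rfl, rfl⟩
      exact ⟨rfl, fun a b => mul_comm _ _⟩
    · rintro ⟨h1, h2⟩
      obtain ⟨s, Q⟩ := q
      simp only at h1
      subst h1
      refine ⟨Q, ?_, rfl⟩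
      apply eq_of_minors
      intro a b
      have := h2 a b
      simp only at this
      rw [mul_comm, this, mul_comm]
  rw [h]
  exact (isClosed_fibre _).inter (isClosed_iInter fun a =>
    isClosed_iInter fun b => isClosed_zero (multiHom_lin _ _ _ _ _))

/-- A point of the fibre, as a point of the subspace. -/
def toFibre (t : Base k) (Q : Fib t) : fibre t := ⟨inFib t Q, rfl⟩

lemma three_le_dim [CharZero k] [IsAlgClosed k] (t : Base k) :
    3 ≤ topologicalKrullDim (fibre t) := by
  -- a point with affine components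
  have hex : ∀ i : Fin 3, ∃ S : (W (tw t i)).Point, S ≠ 0 := fun i =>
    (affine_infinite (tw t i) (tw_ne t i)).nonempty
  choose R hR using hex
  have hRU : ∀ n, R ∈ U t n R := fun n i => ⟨fun _ => hR i, fun _ => rfl⟩
  -- the chain
  have hirr : ∀ n, n ≤ 3 → IsIrreducible (closure (toFibre t '' U t n R)) := by
    intro n hn
    apply IsIrreducible.closure
    refine ⟨⟨_, R, hRU n, rfl⟩, ?_⟩
    rw [isPreirreducible_iff_isClosed_union_isClosed]
    intro z₁ z₂ hz₁ hz₂ hsub
    obtain ⟨Z₁, hZ₁, rfl⟩ := isClosed_induced_iff.1 hz₁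
    obtain ⟨Z₂, hZ₂, rfl⟩ := isClosed_induced_iff.1 hz₂
    rcases U_irreducible t Z₁ Z₂ hZ₁ hZ₂ n hn R (fun Q hQ => hsub ⟨Q, hQ, rfl⟩) with h | h
    · left
      rintro _ ⟨Q, hQ, rfl⟩
      exact h Q hQ
    · right
      rintro _ ⟨Q, hQ, rfl⟩
      exact h Q hQ
  have hmono : ∀ n, U t n R ⊆ U t (n + 1) R := by
    intro n Q hQ i
    refine ⟨fun hi => ?_, fun hi => (hQ i).2 (by omega)⟩
    rcases Nat.lt_succ_iff_lt_or_eq.1 hi with h | h
    · exact (hQ i).1 h
    · rw [(hQ i).2 h.ge]
      exact hR i
  have hstrict : ∀ n, n < 3 → ¬ closure (toFibre t '' U t (n + 1) R) ⊆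
      closure (toFibre t '' U t n R) := by
    intro n hn hle
    set i₀ : Fin 3 := ⟨n, hn⟩ with hi₀
    obtain ⟨S, hS, hSR⟩ : ∃ S : (W (tw t i₀)).Point, S ≠ 0 ∧ S ≠ R i₀ := by
      by_contra hno
      push Not at hno
      apply affine_infinite (tw t i₀) (tw_ne t i₀)
      apply (Set.finite_singleton (R i₀)).subset
      intro S hS
      exact hno S hS
    have hQ : upd t R i₀ S ∈ U t (n + 1) R := by
      intro i
      by_cases e : i = i₀
      · subst e
        unfold upd
        rw [Function.update_self]
        exact ⟨fun _ => hS, fun h => absurd h (by simp [hi₀])⟩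
      · unfold upd
        rw [Function.update_of_ne e]
        exact ⟨fun _ => hR i, fun _ => rfl⟩
    have h1 : toFibre t (upd t R i₀ S) ∈ closure (toFibre t '' U t n R) :=
      hle (subset_closure ⟨_, hQ, rfl⟩)
    have h2 : closure (toFibre t '' U t n R) ⊆
        Subtype.val ⁻¹' (inFib t '' {Q | Q i₀ = R i₀}) := by
      apply closure_minimal
      · rintro _ ⟨Q, hQ, rfl⟩
        exact ⟨Q, (hQ i₀).2 le_rfl, rfl⟩
      · exact (isClosed_slice t i₀ (R i₀)).preimage continuous_subtype_val
    obtain ⟨Q, hQ1, hQ2⟩ := h2 h1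
    have h3 : Q = upd t R i₀ S := by
      have : inFib t Q = inFib t (upd t R i₀ S) := hQ2
      unfold inFib at this
      simpa using this
    rw [h3] at hQ1
    have h4 : upd t R i₀ S i₀ = R i₀ := hQ1
    unfold upd at h4
    rw [Function.update_self] at h4
    exact hSR h4
  unfold topologicalKrullDim
  let C : Fin 4 → TopologicalSpace.IrreducibleCloseds (fibre t) := fun n =>
    ⟨closure (toFibre t '' U t n.1 R), hirr n.1 (by omega), isClosed_closure⟩
  have hC : ∀ i : Fin 3, C i.castSucc < C i.succ := by
    intro i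
    rw [lt_iff_le_not_ge]
    refine ⟨fun x hx => ?_, fun hle => ?_⟩
    · exact closure_mono (Set.image_mono (hmono i.1)) hx
    · exact hstrict i.1 i.2 hle
  exact Order.LTSeries.length_le_krullDim (α := TopologicalSpace.IrreducibleCloseds (fibre t))
    ⟨3, C, hC⟩

end PinkTw
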