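import Mathlib
import Pool.Agent.PinkTw.Fibre

/-!
Every point of `X` lies in a one-dimensional algebraic subgroup of its fibre, and `X` lies in no
strict group subscheme.
-/

namespace PinkTw

open WeierstrassCurve

lemma dim_range_le_one {T P : Type*} [TopologicalSpace T] [T1Space T] (γ : P → T) (o : P)
    (h : ∀ Y : Set T, IsClosed Y → (γ ⁻¹' Y).Finite ∨ ∀ x, x ≠ o → γ x ∈ Y) :
    topologicalKrullDim (Set.range γ) ≤ 1 := by
  apply dim_le_one (⟨γ o, ⟨o, rfl⟩⟩ : Set.range γ)
  intro Z hZ
  obtain ⟨Y, hY, rfl⟩ := isClosed_induced_iff.1 hZ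
  rcases h Y hY with h1 | h1
  · left
    apply Set.Finite.of_finite_image _ Subtype.val_injective.injOn
    apply (h1.image γ).subset
    rintro _ ⟨⟨_, x, rfl⟩, hx, rfl⟩
    exact ⟨x, hx, rfl⟩
  · right
    rintro ⟨_, x, rfl⟩ hx
    apply h1 x
    rintro rfl
    exact hx rfl

variable {k : Type*} [Field k] [DecidableEq k]

/-- The diagonal homomorphism `Q ↦ (c_i Q)_i`. -/
def diag (t : Base k) (c : Fin 3 → k) (hc : ∀ i, c i ≠ 0) (h : ∀ i, tw t i = c i ^ 2 * tw t 0) :
    (W (tw t 0)).Point →+ Fib t :=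
  AddMonoidHom.pi fun i => scale (hc i) (h i)

lemma diag_apply (t : Base k) (c : Fin 3 → k) (hc : ∀ i, c i ≠ 0)
    (h : ∀ i, tw t i = c i ^ 2 * tw t 0) (Q : (W (tw t 0)).Point) (i : Fin 3) :
    diag t c hc h Q i = scale (hc i) (h i) Q := rfl

/-- The coordinates after scaling. -/
def scal (c : k) : Fin 3 → k := ![c ^ 2, c ^ 3, 1]

lemma scale_eq_iff {δ δ' c : k} (hc : c ≠ 0) (h : δ' = c ^ 2 * δ) (P : (W δ).Point)
    (P' : (W δ').Point) : P' = scale hc h P ↔
      ∀ a b : Fin 3, scal c b * (hcoord P' a * hcoord P b) = scal c a * (hcoord P' b * hcoord P a) := by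
  rcases P with _ | ⟨x, y, hP⟩
  · have e0 : scale hc h (.zero : (W δ).Point) = .zero := rfl
    rw [e0]
    constructor
    · rintro rfl a b
      fin_cases a <;> fin_cases b <;> simp [hcoord, scal]
    · intro h0
      rcases P' with _ | ⟨x', y', hP'⟩
      · rfl
      · have := h0 1 2
        simp [hcoord, scal] at this
        exact absurd this.symm (pow_ne_zero _ hc)
  · rw [scale_some]
    constructor
    · rintro rfl a b
      fin_cases a <;> fin_cases b <;> simp [hcoord, scal] <;> ring
    · intro h0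
      rcases P' with _ | ⟨x', y', hP'⟩
      · have := h0 1 2
        simp [hcoord, scal] at this
      · have h02 := h0 0 2
        have h12 := h0 1 2
        simp only [hcoord, scal, Matrix.cons_val] at h02 h12
        have e1 : x' = c ^ 2 * x := by linear_combination h02
        have e2 : y' = c ^ 3 * y := by linear_combination h12
        subst e1
        subst e2
        rfl

lemma isClosed_range_diag (t : Base k) (c : Fin 3 → k) (hc : ∀ i, c i ≠ 0)
    (h : ∀ i, tw t i = c i ^ 2 * tw t 0) (hc0 : c 0 = 1) :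
    IsClosed (Set.range fun Q => inFib t (diag t c hc h Q)) := by
  have hset : (Set.range fun Q => inFib t (diag t c hc h Q)) =
      {q : Tot k | q.base = t} ∩ ⋂ (i : Fin 3) (a : Fin 3) (b : Fin 3),
      {q : Tot k | MvPolynomial.eval (coords q)
        (MvPolynomial.C (scal (c i) b) *
          (MvPolynomial.X (some (i, a)) * MvPolynomial.X (some (0, b))) -
          MvPolynomial.C (scal (c i) a) *
          (MvPolynomial.X (some (i, b)) * MvPolynomial.X (some (0, a)))) = 0} := by
    ext q
    simp only [Set.mem_range, Set.mem_inter_iff, Set.mem_iInter, Set.mem_ofPred_eq, map_sub,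
      map_mul, MvPolynomial.eval_X, MvPolynomial.eval_C, coords, sub_eq_zero]
    constructor
    · rintro ⟨Q, rfl⟩
      refine ⟨rfl, fun i a b => ?_⟩
      have h1 : diag t c hc h Q i = scale (hc i) (h i) (diag t c hc h Q 0) := by
        rw [diag_apply, diag_apply]
        congr 1
        rcases Q with _ | ⟨x, y, hQ⟩
        · rfl
        · rw [scale_some]
          simp [hc0]
      exact (scale_eq_iff (hc i) (h i) _ _).1 h1 a b
    · rintro ⟨h1, h2⟩
      obtain ⟨s, Q⟩ := q
      simp only at h1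
      subst h1
      refine ⟨Q 0, ?_⟩
      unfold inFib
      congr 1
      funext i
      rw [diag_apply]
      symm
      rw [scale_eq_iff (hc i) (h i)]
      exact h2 i
  rw [hset]
  exact (isClosed_fibre _).inter (isClosed_iInter fun i => isClosed_iInter fun a =>
    isClosed_iInter fun b => isClosed_zero (multiHom_bilin _ _ _ _ _ _ _ _))

lemma reg_diag (t : Base k) (c : Fin 3 → k) (hc : ∀ i, c i ≠ 0)
    (h : ∀ i, tw t i = c i ^ 2 * tw t 0) (v : Var) :
    Reg (fun Q => coords (inFib t (diag t c hc h Q)) v) := by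
  rcases v with _ | ⟨i, j⟩
  · exact reg_const t.1
  · fin_cases j
    · refine ⟨Polynomial.C (c i ^ 2) * Polynomial.X, 0, fun x y hxy => ?_⟩
      simp only [coords, inFib, diag_apply, scale_some, hcoord]
      simp
    · refine ⟨0, Polynomial.C (c i ^ 3), fun x y hxy => ?_⟩
      simp only [coords, inFib, diag_apply, scale_some, hcoord]
      simp [mul_comm]
    · refine ⟨1, 0, fun x y hxy => ?_⟩
      simp only [coords, inFib, diag_apply, scale_some, hcoord]
      simp

lemma dim_range_diag (t : Base k) (c : Fin 3 → k) (hc : ∀ i, c i ≠ 0)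
    (h : ∀ i, tw t i = c i ^ 2 * tw t 0) :
    topologicalKrullDim (Set.range fun Q => inFib t (diag t c hc h Q)) ≤ 1 := by
  apply dim_range_le_one _ (.zero : (W (tw t 0)).Point)
  intro Y hY
  rcases closed_preimage (fun Q => inFib t (diag t c hc h Q)) (reg_diag t c hc h) Y hY with h1 | h1
  · exact Or.inl h1
  · right
    rintro (_ | ⟨x, y, hxy⟩) hx
    · exact absurd rfl hx
    · exact h1 x y hxy

/-- Every point of `X` lies in an algebraic subgroup of codimension at least two of its fibre. -/
lemma X_subset [CharZero k] [IsAlgClosed k] : X k ⊆ exceptional k 1 := by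
  rintro ⟨t, P⟩ ⟨u₁, u₂, s1, s2, ⟨h0, e0⟩, ⟨h1, e1⟩, ⟨h2, e2⟩⟩
  simp only at s1 s2 h0 e0 h1 e1 h2 e2
  have ht1 : t.1 ≠ 0 := t.2.1
  have ht2 : 1 - t.1 ≠ 0 := sub_ne_zero.2 (Ne.symm t.2.2)
  have n1 : u₁ ≠ 0 := by
    rintro rfl
    exact ht1 (by rw [← s1]; ring)
  have n2 : u₂ ≠ 0 := by
    rintro rfl
    exact ht2 (by rw [← s2]; ring)
  have hc : ∀ i, (![1, u₂ / u₁, u₂] : Fin 3 → k) i ≠ 0 := by
    intro i
    fin_cases i
    · exact one_ne_zero
    · exact div_ne_zero n2 n1
    · exact n2
  have h : ∀ i, tw t i = (![1, u₂ / u₁, u₂] : Fin 3 → k) i ^ 2 * tw t 0 := by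
    intro i
    fin_cases i
    · simp
    · simp only [tw, Fin.mk_one, Fin.isValue, Matrix.cons_val_one, Matrix.cons_val_zero]
      rw [div_pow, s2, s1]
      field_simp
    · simp only [tw, Fin.reduceFinMk, Fin.isValue, Matrix.cons_val, Matrix.cons_val_zero]
      rw [s2]
      ring
  refine ⟨(diag t _ hc h).range, ?_, ?_, ?_⟩
  · refine ⟨P 0, ?_⟩
    funext i
    rw [diag_apply, e0, scale_some]
    fin_cases i
    · simp [e0]
    · simp only [Fin.mk_one, Fin.isValue, Matrix.cons_val_one, Matrix.cons_val_zero, e1]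
      congr 1
      · ring
      · rw [div_pow]; field_simp
    · simp only [Fin.reduceFinMk, Fin.isValue, Matrix.cons_val, e2]
      congr 1
      · ring
      · ring
  · have : inFib t '' ((diag t _ hc h).range : Set (Fib t)) =
        Set.range fun Q => inFib t (diag t _ hc h Q) := by
      ext q
      constructor
      · rintro ⟨_, ⟨Q, rfl⟩, rfl⟩
        exact ⟨Q, rfl⟩
      · rintro ⟨Q, rfl⟩
        exact ⟨_, ⟨Q, rfl⟩, rfl⟩
    show IsClosed (inFib t '' ((diag t _ hc h).range : Set (Fib t)))
    rw [this]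
    exact isClosed_range_diag t _ hc h rfl
  · have : inFib t '' ((diag t _ hc h).range : Set (Fib t)) =
        Set.range fun Q => inFib t (diag t _ hc h Q) := by
      ext q
      constructor
      · rintro ⟨_, ⟨Q, rfl⟩, rfl⟩
        exact ⟨Q, rfl⟩
      · rintro ⟨Q, rfl⟩
        exact ⟨_, ⟨Q, rfl⟩, rfl⟩
    show topologicalKrullDim (inFib t '' ((diag t _ hc h).range : Set (Fib t))) + (1 : ℕ) <
      topologicalKrullDim (fibre t)
    rw [this]
    have h1 := dim_range_diag t _ hc h
    calc topologicalKrullDim (Set.range fun Q => inFib t (diag t _ hc h Q)) + (1 : ℕ)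
        ≤ 1 + (1 : ℕ) := by gcongr
      _ < 3 := by norm_num
      _ ≤ _ := three_le_dim t

end PinkTw
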