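import Mathlib
import Pool.Agent.PinkTw.Exc

/-!
The curve `X` is contained in no strict group subscheme.
-/

namespace PinkTw

open WeierstrassCurve

variable {k : Type*} [Field k]

/-- The point of the fibre with abscissas `0` and ordinates `w i ^ 3`. -/
def mkPt [CharZero k] (t : Base k) (w : Fin 3 → k) (hw : ∀ i, w i ^ 2 = tw t i) : Fib t :=
  fun i => .some 0 (w i ^ 3) (nonsingular_zero (tw_ne t i) (by rw [← hw i]; ring))

lemma mkPt_mem [CharZero k] (t : Base k) (w : Fin 3 → k) (hw : ∀ i, w i ^ 2 = tw t i)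
    (h : w 2 = w 0 * w 1) : inFib t (mkPt t w hw) ∈ X k := by
  refine ⟨w 0, w 1, hw 0, hw 1, ⟨_, rfl⟩, ⟨_, rfl⟩, ?_⟩
  refine ⟨?_, ?_⟩
  · rw [← h]
    have e : (w 2 ^ 3) ^ 2 = tw t 2 ^ 3 := by rw [← hw 2]; ring
    exact nonsingular_zero (tw_ne t 2) e
  · show Affine.Point.some _ _ _ = _
    simp only [h]
    rfl

/-- Signs. -/
def sg (i : Fin 3) : Fin 3 → k := fun j => if j = i then 1 else -1

lemma sg_mul (i : Fin 3) : (sg i 2 : k) = sg i 0 * sg i 1 := by
  fin_cases i <;> simp [sg]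

lemma sg_sq (i j : Fin 3) : (sg i j : k) ^ 2 = 1 := by
  unfold sg
  split_ifs <;> norm_num

lemma hsg (t : Base k) (w : Fin 3 → k) (hw : ∀ i, w i ^ 2 = tw t i) (i j : Fin 3) :
    (sg i j * w j) ^ 2 = tw t j := by
  rw [mul_pow, sg_sq, one_mul, hw j]

variable [DecidableEq k]

lemma add_mkPt [CharZero k] (t : Base k) (w : Fin 3 → k) (hw : ∀ i, w i ^ 2 = tw t i)
    (i : Fin 3) :
    mkPt t w hw + mkPt t (fun j => sg i j * w j) (hsg t w hw i) =
      Pi.single i ((2 : ℕ) • mkPt t w hw i) := by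
  funext j
  by_cases hj : j = i
  · subst hj
    rw [Pi.single_eq_same, two_nsmul, Pi.add_apply]
    congr 1
    unfold mkPt
    simp [sg]
  · rw [Pi.single_eq_of_ne hj, Pi.add_apply]
    unfold mkPt
    apply Affine.Point.add_of_Y_eq rfl
    rw [W_negY]
    simp only [sg, hj, if_false]
    ring

omit [DecidableEq k] in
lemma single_eq_upd (t : Base k) (i : Fin 3) (S : (W (tw t i)).Point) :
    (Pi.single i S : Fib t) = upd t 0 i S := rfl

omit [DecidableEq k] in
/-- A closed subset of `A` which meets a factor in infinitely many points contains it up to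
the origin. -/
lemma single_mem (t : Base k) (i : Fin 3) (G : Set (Tot k)) (hG : IsClosed G)
    (hinf : {Q : (W (tw t i)).Point | inFib t (Pi.single i Q) ∈ G}.Infinite) (x y : k)
    (h : (W (tw t i)).Nonsingular x y) : inFib t (Pi.single i (.some x y h)) ∈ G := by
  rcases closed_preimage (fun Q => inFib t (upd t 0 i Q)) (reg_upd t 0 i) G hG with h1 | h1
  · exact absurd h1 hinf
  · exact h1 x y h

variable [CharZero k]

lemma orbit_infinite (δ w : k) (hw : w ^ 2 = δ) (hw0 : w ≠ 0) (h : (W δ).Nonsingular 0 (w ^ 3)) :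
    Function.Injective fun n : ℕ => (2 ^ (n + 1) : ℕ) • (Affine.Point.some 0 (w ^ 3) h) := by
  have h1 : (W (1 : k)).Nonsingular 0 1 := nonsingular_zero one_ne_zero (by norm_num)
  have hd : δ = w ^ 2 * 1 := by rw [hw, mul_one]
  have e : (Affine.Point.some 0 (w ^ 3) h) = scale hw0 hd (.some 0 1 h1) := by
    rw [scale_some]
    simp
  intro n m hnm
  simp only [e, ← map_nsmul] at hnm
  exact orbit_injective h1 (scale_injective hw0 hd hnm)

/-- `X` is contained in no strict group subscheme. -/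
lemma group_eq_univ [IsAlgClosed k] (G : Set (Tot k)) (hG : IsGroupSubscheme G) (hX : X k ⊆ G) :
    G = Set.univ := by
  obtain ⟨hcl, hsub⟩ := hG
  rw [Set.eq_univ_iff_forall]
  rintro ⟨t, P⟩
  obtain ⟨H, hH⟩ := hsub t
  show inFib t P ∈ G
  rw [hH]
  -- square roots
  obtain ⟨u, hu⟩ := IsAlgClosed.exists_pow_nat_eq t.1 (n := 2) (by norm_num)
  obtain ⟨v, hv⟩ := IsAlgClosed.exists_pow_nat_eq (1 - t.1) (n := 2) (by norm_num)
  set w : Fin 3 → k := ![u, v, u * v] with hwdef
  have hw : ∀ i, w i ^ 2 = tw t i := by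
    intro i
    fin_cases i
    · exact hu
    · exact hv
    · show (u * v) ^ 2 = t.1 * (1 - t.1)
      rw [mul_pow, hu, hv]
  have hw0 : ∀ i, w i ≠ 0 := by
    intro i h0
    apply tw_ne t i
    rw [← hw i, h0]
    ring
  have hprod : w 2 = w 0 * w 1 := rfl
  have m0 : mkPt t w hw ∈ H := (hH _).1 (hX (mkPt_mem t w hw hprod))
  have m1 : ∀ i, mkPt t (fun j => sg i j * w j) (hsg t w hw i) ∈ H := by
    intro i
    apply (hH _).1
    apply hX
    apply mkPt_mem
    rw [sg_mul, hprod]
    ring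
  have m2 : ∀ i, Pi.single i ((2 : ℕ) • mkPt t w hw i) ∈ H := by
    intro i
    rw [← add_mkPt t w hw i]
    exact H.add_mem m0 (m1 i)
  have m3 : ∀ i, ∀ n : ℕ, Pi.single i ((2 ^ (n + 1) : ℕ) • mkPt t w hw i) ∈ H := by
    intro i n
    have := H.nsmul_mem (m2 i) (2 ^ n)
    rw [← Pi.single_smul, ← mul_nsmul] at this
    rwa [pow_succ, mul_comm]
  have m4 : ∀ i, ∀ Q : (W (tw t i)).Point, Pi.single i Q ∈ H := by
    intro i Q
    rcases Q with _ | ⟨x, y, hxy⟩
    · have : Pi.single i (.zero : (W (tw t i)).Point) = (0 : Fib t) := Pi.single_zero i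
      rw [this]
      exact H.zero_mem
    · rw [← hH]
      apply single_mem t i G hcl
      have hinj := orbit_infinite (tw t i) (w i) (hw i) (hw0 i)
        (nonsingular_zero (tw_ne t i) (by rw [← hw i]; ring))
      apply (Set.infinite_range_of_injective hinj).mono
      rintro _ ⟨n, rfl⟩
      show inFib t _ ∈ G
      rw [hH]
      exact m3 i n
  have hsum : P = ∑ i, Pi.single i (P i) := (Finset.univ_sum_single P).symm
  rw [hsum]
  exact H.sum_mem fun i _ => m4 i (P i)

end PinkTw
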