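import Mathlib
import Pool.Agent.PinkTw.Group

/-!
The set `X` is closed, irreducible and one-dimensional.
-/

namespace PinkTw

open WeierstrassCurve

variable {k : Type*} [Field k]

/-! ### `X` is closed -/

lemma multiHom_q0 : MultiHom (MvPolynomial.X (some (0, 1)) ^ 2 -
    MvPolynomial.X none ^ 3 * MvPolynomial.X (some (0, 2)) ^ 2 : MvPolynomial Var k) := by
  intro l
  refine ⟨2 • weight l (some (0, 1)), ?_⟩
  apply Submodule.sub_mem (MvPolynomial.weightedHomogeneousSubmodule k (weight l) _)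
  · exact (MvPolynomial.isWeightedHomogeneous_X k (weight l) (some (0, 1))).pow 2
  · have := ((MvPolynomial.isWeightedHomogeneous_X k (weight l) none).pow 3).mul
      ((MvPolynomial.isWeightedHomogeneous_X k (weight l) (some (0, 2))).pow 2)
    rw [show weight l none = 0 from rfl, smul_zero, zero_add] at this
    exact this

lemma multiHom_q1 : MultiHom (MvPolynomial.X (some (1, 1)) ^ 2 -
    (1 - MvPolynomial.X none) ^ 3 * MvPolynomial.X (some (1, 2)) ^ 2 : MvPolynomial Var k) := by
  intro l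
  refine ⟨2 • weight l (some (1, 1)), ?_⟩
  apply Submodule.sub_mem (MvPolynomial.weightedHomogeneousSubmodule k (weight l) _)
  · exact (MvPolynomial.isWeightedHomogeneous_X k (weight l) (some (1, 1))).pow 2
  · have h1 : MvPolynomial.IsWeightedHomogeneous (weight l)
        (1 - MvPolynomial.X none : MvPolynomial Var k) 0 := by
      apply Submodule.sub_mem (MvPolynomial.weightedHomogeneousSubmodule k (weight l) _)
      · exact MvPolynomial.isWeightedHomogeneous_one k (weight l)
      · exact MvPolynomial.isWeightedHomogeneous_X k (weight l) none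
    have := (h1.pow 3).mul
      ((MvPolynomial.isWeightedHomogeneous_X k (weight l) (some (1, 2))).pow 2)
    rw [smul_zero, zero_add] at this
    exact this

lemma multiHom_q2 : MultiHom (MvPolynomial.X (some (0, 1)) * MvPolynomial.X (some (1, 1)) *
      MvPolynomial.X (some (2, 2)) -
    MvPolynomial.X (some (0, 2)) * MvPolynomial.X (some (1, 2)) *
      MvPolynomial.X (some (2, 1)) : MvPolynomial Var k) := by
  intro l
  refine ⟨weight l (some (0, 1)) + weight l (some (1, 1)) + weight l (some (2, 2)), ?_⟩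
  apply Submodule.sub_mem (MvPolynomial.weightedHomogeneousSubmodule k (weight l) _)
  · exact ((MvPolynomial.isWeightedHomogeneous_X k (weight l) (some (0, 1))).mul
      (MvPolynomial.isWeightedHomogeneous_X k (weight l) (some (1, 1)))).mul
      (MvPolynomial.isWeightedHomogeneous_X k (weight l) (some (2, 2)))
  · exact ((MvPolynomial.isWeightedHomogeneous_X k (weight l) (some (0, 2))).mul
      (MvPolynomial.isWeightedHomogeneous_X k (weight l) (some (1, 2)))).mul
      (MvPolynomial.isWeightedHomogeneous_X k (weight l) (some (2, 1)))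

lemma eq_some_of_hcoord {δ : k} {P : (W δ).Point} {y : k} (h0 : hcoord P 0 = 0)
    (h2 : hcoord P 2 ≠ 0) (h1 : hcoord P 1 = y) : ∃ h, P = .some 0 y h := by
  rcases P with _ | ⟨x', y', h'⟩
  · exact absurd rfl h2
  · have e0 : x' = 0 := h0
    have e1 : y' = y := h1
    subst e0
    subst e1
    exact ⟨h', rfl⟩

lemma isClosed_X : IsClosed (X k) := by
  have hset : X k = (⋂ (i : Fin 3), {q : Tot k | MvPolynomial.eval (coords q)
      (MvPolynomial.C 1 * MvPolynomial.X (some (i, 0)) -
        MvPolynomial.C 0 * MvPolynomial.X (some (i, 0))) = 0}) ∩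
      ({q : Tot k | MvPolynomial.eval (coords q) (MvPolynomial.X (some (0, 1)) ^ 2 -
        MvPolynomial.X none ^ 3 * MvPolynomial.X (some (0, 2)) ^ 2) = 0} ∩
      ({q : Tot k | MvPolynomial.eval (coords q) (MvPolynomial.X (some (1, 1)) ^ 2 -
        (1 - MvPolynomial.X none) ^ 3 * MvPolynomial.X (some (1, 2)) ^ 2) = 0} ∩
      {q : Tot k | MvPolynomial.eval (coords q)
        (MvPolynomial.X (some (0, 1)) * MvPolynomial.X (some (1, 1)) *
        MvPolynomial.X (some (2, 2)) -
        MvPolynomial.X (some (0, 2)) * MvPolynomial.X (some (1, 2)) *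
        MvPolynomial.X (some (2, 1))) = 0})) := by
    ext ⟨t, P⟩
    simp only [Set.mem_inter_iff, Set.mem_iInter, Set.mem_ofPred_eq, map_sub, map_one, map_zero,
      one_mul, zero_mul, sub_zero, map_mul, map_pow, MvPolynomial.eval_X, coords]
    constructor
    · rintro ⟨u, v, s1, s2, ⟨h0, e0⟩, ⟨h1, e1⟩, ⟨h2, e2⟩⟩
      simp only at s1 s2 h0 e0 h1 e1 h2 e2
      refine ⟨?_, ?_, ?_, ?_⟩
      · intro i
        fin_cases i
        · simp [e0, hcoord]
        · simp [e1, hcoord]
        · simp [e2, hcoord]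
      · simp only [e0, hcoord, ← s1, Matrix.cons_val]
        ring
      · simp only [e1, hcoord, ← s2, Matrix.cons_val]
        ring
      · simp only [e0, e1, e2, hcoord, Matrix.cons_val]
        ring
    · rintro ⟨a, b, c, d⟩
      have z0 : hcoord (P 0) 2 ≠ 0 := by
        intro h
        rcases hP : P 0 with _ | ⟨x', y', h'⟩
        · rw [hP] at b
          simp [hcoord] at b
        · rw [hP] at h
          simp [hcoord] at h
      have z1 : hcoord (P 1) 2 ≠ 0 := by
        intro h
        rcases hP : P 1 with _ | ⟨x', y', h'⟩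
        · rw [hP] at c
          simp [hcoord] at c
        · rw [hP] at h
          simp [hcoord] at h
      obtain ⟨h0, e0⟩ := eq_some_of_hcoord (a 0) z0 rfl
      obtain ⟨h1, e1⟩ := eq_some_of_hcoord (a 1) z1 rfl
      have w0 : hcoord (P 0) 2 = 1 := by rw [e0]; rfl
      have w1 : hcoord (P 1) 2 = 1 := by rw [e1]; rfl
      rw [w0, w1] at d
      have z2 : hcoord (P 2) 2 ≠ 0 := by
        intro h
        rcases hP : P 2 with _ | ⟨x', y', h'⟩
        · rw [hP] at d
          simp [hcoord] at d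
        · rw [hP] at h
          simp [hcoord] at h
      obtain ⟨h2, e2⟩ := eq_some_of_hcoord (a 2) z2 rfl
      have w2 : hcoord (P 2) 2 = 1 := by rw [e2]; rfl
      rw [w2] at d
      rw [w0] at b
      rw [w1] at c
      have ht1 : t.1 ≠ 0 := t.2.1
      have ht2 : 1 - t.1 ≠ 0 := sub_ne_zero.2 (Ne.symm t.2.2)
      have q0 : hcoord (P 0) 1 ^ 2 = t.1 ^ 3 := by linear_combination b
      have q1 : hcoord (P 1) 1 ^ 2 = (1 - t.1) ^ 3 := by linear_combination c
      have s1 : (hcoord (P 0) 1 / t.1) ^ 2 = t.1 := by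
        rw [div_pow, q0]; field_simp
      have s2 : (hcoord (P 1) 1 / (1 - t.1)) ^ 2 = 1 - t.1 := by
        rw [div_pow, q1]; field_simp
      have r1 : (hcoord (P 0) 1 / t.1) ^ 3 = hcoord (P 0) 1 := by
        rw [pow_succ, s1]; field_simp
      have r2 : (hcoord (P 1) 1 / (1 - t.1)) ^ 3 = hcoord (P 1) 1 := by
        rw [pow_succ, s2]; field_simp
      refine ⟨hcoord (P 0) 1 / t.1, hcoord (P 1) 1 / (1 - t.1), s1, s2, ?_, ?_, ?_⟩
      · rw [r1]
        exact ⟨h0, e0⟩
      · rw [r2]
        exact ⟨h1, e1⟩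
      · rw [mul_pow, r1, r2]
        apply eq_some_of_hcoord (a 2) z2
        linear_combination -d
  rw [hset]
  exact (isClosed_iInter fun i => isClosed_zero (multiHom_lin _ _ _ _ _)).inter
    ((isClosed_zero multiHom_q0).inter ((isClosed_zero multiHom_q1).inter
      (isClosed_zero multiHom_q2)))

/-! ### The rational parametrisation of `X` -/

/-- Rational functions of `v` with a power of `1 + v ^ 2` as denominator. -/
def RegV (g : k → k) : Prop :=
  ∃ (f : Polynomial k) (N : ℕ), ∀ v, 1 + v ^ 2 ≠ 0 → g v * (1 + v ^ 2) ^ N = f.eval v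

lemma regV_const (c : k) : RegV (fun _ => c) := ⟨Polynomial.C c, 0, fun v _ => by simp⟩

lemma regV_add {f g : k → k} (hf : RegV f) (hg : RegV g) : RegV (fun v => f v + g v) := by
  obtain ⟨p, N, h1⟩ := hf
  obtain ⟨q, M, h2⟩ := hg
  refine ⟨p * (1 + Polynomial.X ^ 2) ^ M + q * (1 + Polynomial.X ^ 2) ^ N, N + M,
    fun v hv => ?_⟩
  simp only [Polynomial.eval_add, Polynomial.eval_mul, Polynomial.eval_pow, Polynomial.eval_one,
    Polynomial.eval_X, ← h1 v hv, ← h2 v hv]
  ring

lemma regV_mul {f g : k → k} (hf : RegV f) (hg : RegV g) : RegV (fun v => f v * g v) := by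
  obtain ⟨p, N, h1⟩ := hf
  obtain ⟨q, M, h2⟩ := hg
  refine ⟨p * q, N + M, fun v hv => ?_⟩
  simp only [Polynomial.eval_mul, ← h1 v hv, ← h2 v hv]
  ring

lemma regV_pow {f : k → k} (hf : RegV f) (n : ℕ) : RegV (fun v => f v ^ n) := by
  induction n with
  | zero => simpa using regV_const (1 : k)
  | succ n ih =>
    simp only [pow_succ]
    exact regV_mul ih hf

/-- `u₁ = (1 - v ^ 2) / (1 + v ^ 2)`. -/
def u₁ (v : k) : k := (1 - v ^ 2) / (1 + v ^ 2)

/-- `u₂ = 2 v / (1 + v ^ 2)`. -/
def u₂ (v : k) : k := 2 * v / (1 + v ^ 2)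

lemma regV_u₁ : RegV (u₁ (k := k)) := by
  refine ⟨1 - Polynomial.X ^ 2, 1, fun v hv => ?_⟩
  unfold u₁
  simp only [pow_one, Polynomial.eval_sub, Polynomial.eval_one, Polynomial.eval_pow,
    Polynomial.eval_X]
  exact div_mul_cancel₀ _ hv

lemma regV_u₂ : RegV (u₂ (k := k)) := by
  refine ⟨Polynomial.C 2 * Polynomial.X, 1, fun v hv => ?_⟩
  unfold u₂
  simp only [pow_one, Polynomial.eval_mul, Polynomial.eval_C, Polynomial.eval_X]
  exact div_mul_cancel₀ _ hv

/-- The coordinates of the point of `X` with parameter `v`. -/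
def par (v : k) : Var → k
  | none => u₁ v ^ 2
  | some (0, j) => (![0, u₁ v ^ 3, 1] : Fin 3 → k) j
  | some (1, j) => (![0, u₂ v ^ 3, 1] : Fin 3 → k) j
  | some (2, j) => (![0, (u₁ v * u₂ v) ^ 3, 1] : Fin 3 → k) j

lemma regV_par (w : Var) : RegV (fun v => par (k := k) v w) := by
  rcases w with _ | ⟨i, j⟩
  · exact regV_pow regV_u₁ 2
  · fin_cases i <;> fin_cases j
    · exact regV_const 0
    · exact regV_pow regV_u₁ 3
    · exact regV_const 1
    · exact regV_const 0
    · exact regV_pow regV_u₂ 3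
    · exact regV_const 1
    · exact regV_const 0
    · exact regV_pow (regV_mul regV_u₁ regV_u₂) 3
    · exact regV_const 1

lemma regV_eval (F : MvPolynomial Var k) : RegV (fun v => MvPolynomial.eval (par v) F) := by
  induction F using MvPolynomial.induction_on with
  | C a => simpa using regV_const a
  | add p q hp hq => simpa using regV_add hp hq
  | mul_X p v hp => simpa using regV_mul hp (regV_par v)

lemma exists_par [CharZero k] {p : Tot k} (hp : p ∈ X k) :
    ∃ v, 1 + v ^ 2 ≠ 0 ∧ coords p = par v := by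
  obtain ⟨t, P⟩ := p
  obtain ⟨a, b, s1, s2, ⟨h0, e0⟩, ⟨h1, e1⟩, ⟨h2, e2⟩⟩ := hp
  simp only at s1 s2 h0 e0 h1 e1 h2 e2
  have ht2 : 1 - t.1 ≠ 0 := sub_ne_zero.2 (Ne.symm t.2.2)
  have n2 : b ≠ 0 := by
    rintro rfl
    exact ht2 (by rw [← s2]; ring)
  have hab : a ^ 2 + b ^ 2 = 1 := by rw [s1, s2]; ring
  have na : 1 + a ≠ 0 := by
    intro h
    have h1 : a = -1 := by linear_combination h
    rw [h1] at hab
    have : b ^ 2 = 0 := by linear_combination hab
    exact n2 (pow_eq_zero_iff (by norm_num) |>.1 this)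
  have hv : (1 + (b / (1 + a)) ^ 2) * (1 + a) = 2 := by
    field_simp
    linear_combination hab
  have hv0 : 1 + (b / (1 + a)) ^ 2 ≠ 0 := by
    intro h
    rw [h, zero_mul] at hv
    exact two_ne_zero hv.symm
  have hu1 : u₁ (b / (1 + a)) = a := by
    unfold u₁
    rw [div_eq_iff hv0]
    apply mul_right_cancel₀ na
    rw [mul_assoc, hv]
    field_simp
    linear_combination -hab
  have hu2 : u₂ (b / (1 + a)) = b := by
    unfold u₂
    rw [div_eq_iff hv0]
    apply mul_right_cancel₀ na
    rw [mul_assoc b, hv]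
    field_simp
  refine ⟨b / (1 + a), hv0, ?_⟩
  funext w
  rcases w with _ | ⟨i, j⟩
  · simp only [coords, par, hu1, s1]
  · fin_cases i
    · simp only [coords, par, hu1, Fin.zero_eta, e0, hcoord]
    · simp only [coords, par, hu2, Fin.mk_one, e1, hcoord]
    · simp only [coords, par, hu1, hu2, Fin.reduceFinMk, e2, hcoord]

/-- Every closed subset of `A` meets `X` in a finite set or contains `X`. -/
lemma X_inter [CharZero k] (Z : Set (Tot k)) (hZ : IsClosed Z) :
    (X k ∩ Z).Finite ∨ X k ⊆ Z := by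
  obtain ⟨𝓕, -, rfl⟩ := isClosed_iff.1 hZ
  by_cases hall : ∀ F ∈ 𝓕, ∀ v : k, 1 + v ^ 2 ≠ 0 → MvPolynomial.eval (par v) F = 0
  · right
    intro p hp F hF
    obtain ⟨v, hv, e⟩ := exists_par hp
    rw [e]
    exact hall F hF v hv
  · left
    push Not at hall
    obtain ⟨F, hF, v₀, hv₀, hne⟩ := hall
    obtain ⟨f, N, hf⟩ := regV_eval F
    have hf0 : f ≠ 0 := by
      rintro rfl
      have := hf v₀ hv₀
      rw [Polynomial.eval_zero] at this
      exact (mul_ne_zero hne (pow_ne_zero _ hv₀)) this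
    apply Set.Finite.of_finite_image _ (coords_injective (k := k)).injOn
    apply ((Polynomial.finite_setOfPred_isRoot hf0).image par).subset
    rintro _ ⟨p, ⟨hp, hpZ⟩, rfl⟩
    obtain ⟨v, hv, e⟩ := exists_par hp
    refine ⟨v, ?_, e.symm⟩
    have h1 : MvPolynomial.eval (coords p) F = 0 := hpZ F hF
    rw [e] at h1
    have h2 := hf v hv
    simp only [h1, zero_mul] at h2
    exact h2.symm

lemma X_surj [CharZero k] [IsAlgClosed k] (t : Base k) : ∃ p ∈ X k, p.base = t := by
  obtain ⟨u, hu⟩ := IsAlgClosed.exists_pow_nat_eq t.1 (n := 2) (by norm_num)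
  obtain ⟨v, hv⟩ := IsAlgClosed.exists_pow_nat_eq (1 - t.1) (n := 2) (by norm_num)
  have hw : ∀ i, ((![u, v, u * v] : Fin 3 → k) i) ^ 2 = tw t i := by
    intro i
    fin_cases i
    · exact hu
    · exact hv
    · show (u * v) ^ 2 = t.1 * (1 - t.1)
      rw [mul_pow, hu, hv]
  exact ⟨_, mkPt_mem t _ hw rfl, rfl⟩

lemma X_infinite [CharZero k] [IsAlgClosed k] : (X k).Infinite := by
  have hB : Infinite (Base k) := by
    have h1 : ({t : k | t ≠ 0 ∧ t ≠ 1}).Infinite := by
      have : ({t : k | t ≠ 0 ∧ t ≠ 1}) = ({0, 1} : Set k)ᶜ := by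
        ext t
        simp
      rw [this]
      exact Set.Finite.infinite_compl (by simp)
    exact h1.to_subtype
  intro hfin
  have h2 : (Set.univ : Set (Base k)).Finite := by
    apply (hfin.image Tot.base).subset
    intro t _
    obtain ⟨p, hp, e⟩ := X_surj t
    exact ⟨p, hp, e⟩
  exact Set.infinite_univ h2

lemma X_irreducible [CharZero k] [IsAlgClosed k] : IsIrreducible (X k) :=
  irreducible_of X_infinite X_inter

lemma X_dim [CharZero k] [IsAlgClosed k] : topologicalKrullDim (X k) = 1 :=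
  dim_eq_one X_infinite X_inter

end PinkTw
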